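import Pool.Agent.W822.PD.Stm
import Pool.Agent.H984R3.Per.FinalSharp

/-!
PD-PAR: choice of the parameters for the pinches of the outer boundary of the largest cluster.
Adapted from `H342N.t_PAR`.
-/

set_option autoImplicit false

namespace Pool.Agent.W924.PD

open H974 H12S Finset H389NS H984P H984N H342P
open Pool.Agent.W92.DP Pool.Agent.W822.PD

theorem par : PD_TRI → PD_LOW → PD_BIG → PD_PAR := by
  intro hT hL hB t ht0 ht1 δ hδ
  have hok : Ok (fun _ : Edg => (1/2:ℝ)) := fun _ => ⟨by norm_num, by norm_num⟩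
  obtain ⟨M, c, E, δ1, hM, hc, hE, hδ1, htr⟩ := hT t ht0 ht1
  obtain ⟨C', hC', hlow⟩ := hL
  obtain ⟨δ0, hδ0⟩ : ∃ δ0 : ℝ, δ0 = min δ1 (1/2) := ⟨_, rfl⟩
  have hδ0pos : 0 < δ0 := by rw [hδ0]; exact lt_min hδ1 (by norm_num)
  have hδ01 : δ0 ≤ 1 := by rw [hδ0]; exact (min_le_right _ _).trans (by norm_num)
  have hδ3 : 0 < δ / 3 := by linarith
  -- the number of blocks for the diameter
  obtain ⟨K1', hK1'⟩ := exists_pow_lt_of_lt_one hδ3 (show (1/2:ℝ) < 1 by norm_num)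
  obtain ⟨K1, hK1⟩ : ∃ K1, K1 = K1' + 1 := ⟨_, rfl⟩
  have hK1pos : 0 < K1 := by omega
  have hK1d : (1/2:ℝ) ^ K1 ≤ δ / 3 := by
    rw [hK1, pow_succ]
    have : (0:ℝ) ≤ (1/2) ^ K1' := by positivity
    linarith
  -- the number of blocks for the layer
  obtain ⟨m', hm'⟩ := fs_small1 (384 * K1) (1536 * K1 + 8) hδ3
  obtain ⟨D, hD⟩ : ∃ D : ℕ, D = 48 * K1 * (m' + 4) := ⟨_, rfl⟩
  have hDpos : 0 < D := by rw [hD, hK1]; positivity
  obtain ⟨D2, hD2⟩ : ∃ D2 : ℕ, D2 = 1000 * D := ⟨_, rfl⟩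
  have hD2pos : 0 < D2 := by omega
  -- the number of trials
  obtain ⟨K, hKpos, hK⟩ := fs_small2 (C' * (9 * (D2:ℝ) ^ 2)) (q := 1 - δ0) (by linarith)
    (by linarith) hδ3
  have hD2R : (0:ℝ) < D2 := by exact_mod_cast hD2pos
  have hKR : (0:ℝ) < K := by exact_mod_cast hKpos
  have hDR : (0:ℝ) < D := by exact_mod_cast hDpos
  have hMR : (0:ℝ) < M := by exact_mod_cast hM
  refine ⟨1 / (D2 * K), c * (1 / (2 * (D2 * K))) ^ (3/4 : ℝ), E, by positivity, by positivity, hE,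
    16 * K1 + 100 * D + 10 * (D2 * K * M), fun n hn0 => ?_⟩
  have hnR : (16:ℝ) * K1 + 100 * D + 10 * (D2 * K * M) ≤ n := by exact_mod_cast hn0
  have hnpos : (0:ℝ) < n := by
    have : (0:ℝ) < 10 * (D2 * K * M) := by positivity
    have : (0:ℝ) ≤ 16 * K1 := by positivity
    linarith
  -- diameter
  obtain ⟨L, hL'⟩ : ∃ L : ℕ, L = n / (2 * K1) := ⟨_, rfl⟩
  obtain ⟨m, hm⟩ : ∃ m : ℕ, m = L / 3 := ⟨_, rfl⟩
  have hLn : 2 * K1 * L ≤ n := by rw [hL']; exact Nat.mul_div_le n (2 * K1)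
  have hLn2 : n < 2 * K1 * (L + 1) := by rw [hL']; exact Nat.lt_mul_div_succ n (by omega)
  have hm1 : 3 * m ≤ L := by rw [hm]; exact Nat.mul_div_le L 3
  have hm2 : L < 3 * (m + 1) := by rw [hm]; exact Nat.lt_mul_div_succ L (by omega)
  have hn16 : 16 * K1 ≤ n := by omega
  have hL8 : 8 ≤ L := by
    rw [hL', Nat.le_div_iff_mul_le (by omega)]
    omega
  have hKL : K1 * (L + 1) ≤ n + 1 := by nlinarith
  have hLnn : L ≤ n := by nlinarith
  have hnm : n ≤ 12 * K1 * m := by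
    have : 2 * K1 * (L + 1) ≤ 2 * K1 * (3 * (m + 1)) := by gcongr; omega
    nlinarith
  have hmR : (n:ℝ) ≤ 12 * K1 * m := by exact_mod_cast hnm
  have p1 := (pr_not_big (n := n) (L := L) (K := K1) (by omega) (m := (m:ℤ)) (by omega)
    (by exact_mod_cast hm1) hKL hLnn).trans hK1d
  -- layer
  obtain ⟨R1, hR1⟩ : ∃ R1 : ℕ, R1 = n / D := ⟨_, rfl⟩
  obtain ⟨hR1a, hR1b⟩ := fs_div hDpos (show 2 * D ≤ n by omega)
  rw [← hR1] at hR1a hR1b
  have hR1one : (1:ℤ) ≤ (R1:ℤ) := by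
    have : 1 ≤ R1 := by
      rw [hR1, Nat.le_div_iff_mul_le hDpos]; omega
    exact_mod_cast this
  have hR1R : (1:ℝ) ≤ R1 := by exact_mod_cast hR1one
  have hlayc : 2 * ((m' : ℤ) + 3) * ((R1:ℤ) + 1) + 4 * R1 ≤ (m:ℤ) := by
    have : ((2 * ((m' : ℤ) + 3) * ((R1:ℤ) + 1) + 4 * R1 : ℤ) : ℝ) ≤ ((m:ℤ):ℝ) := by
      push_cast
      have f1 : (R1:ℝ) * D ≤ n := by
        rw [le_div_iff₀ hDR] at hR1b; exact hR1b
      have f2 : (D:ℝ) = 48 * K1 * (m' + 4) := by rw [hD]; push_cast; ring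
      rw [f2] at f1
      have f3 : (0:ℝ) < 12 * K1 := by positivity
      have f4 : (12 * (K1:ℝ)) * ((R1:ℝ) * (4 * (m' + 4))) ≤ (12 * (K1:ℝ)) * m := by
        calc (12 * (K1:ℝ)) * ((R1:ℝ) * (4 * (m' + 4))) = (R1:ℝ) * (48 * K1 * (m' + 4)) := by ring
          _ ≤ n := f1
          _ ≤ _ := hmR
      have f5 : (R1:ℝ) * (4 * (m' + 4)) ≤ m := le_of_mul_le_mul_left f4 f3
      have f6 : (0:ℝ) ≤ m' := by positivity
      nlinarith
    exact_mod_cast this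
  have p2 : Pr (fun _ => (1/2:ℝ)) (RE 0 n 0 n) (fun F => LayEv n (R1:ℤ) (m:ℤ) (↑F)) ≤ δ / 3 := by
    refine (layer_prob2 hR1one hlayc).trans (le_trans ?_ hm')
    have f1 : (n:ℝ) / ((R1:ℤ):ℝ) ≤ 2 * D := by
      push_cast
      rw [div_le_iff₀ (by linarith)]
      rw [div_le_iff₀ (by positivity)] at hR1a
      linarith
    have f2 : (D:ℝ) = 48 * K1 * (m' + 4) := by rw [hD]; push_cast; ring
    have f3 : 4 * ((n:ℝ) / ((R1:ℤ):ℝ) + 2) ≤ 384 * K1 * m' + (1536 * K1 + 8) := by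
      rw [f2] at f1
      calc 4 * ((n:ℝ) / ((R1:ℤ):ℝ) + 2) ≤ 4 * (2 * (48 * K1 * (m' + 4)) + 2) := by linarith
        _ = _ := by ring
    exact mul_le_mul_of_nonneg_right f3 (by positivity)
  -- trials
  obtain ⟨r, hr⟩ : ∃ r : ℕ, r = n / (D2 * K * M) := ⟨_, rfl⟩
  obtain ⟨a, ha⟩ : ∃ a : ℕ, a = M * r := ⟨_, rfl⟩
  have hDK : 0 < D2 * K := by positivity
  have hDKM : 0 < D2 * K * M := by positivity
  obtain ⟨haa', hab'⟩ := fs_div hDKM (show 2 * (D2 * K * M) ≤ n by omega)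
  rw [← hr] at haa' hab'
  push_cast at haa' hab'
  have haR' : (a : ℝ) = M * r := by rw [ha]; push_cast; ring
  have haa : (n:ℝ) / (2 * (D2 * K)) ≤ a := by
    rw [haR']
    calc (n:ℝ) / (2 * (D2 * K)) = M * (n / (2 * (D2 * K * M))) := by field_simp
      _ ≤ M * r := mul_le_mul_of_nonneg_left haa' hMR.le
  have hab : (a:ℝ) ≤ n / (D2 * K) := by
    rw [haR']
    calc (M:ℝ) * r ≤ M * (n / (D2 * K * M)) := mul_le_mul_of_nonneg_left hab' hMR.le
      _ = n / (D2 * K) := by field_simp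
  have hr5 : 5 ≤ r := by
    rw [hr, Nat.le_div_iff_mul_le hDKM]
    omega
  have ha5 : 5 ≤ a := by
    rw [ha]
    nlinarith
  have haR : (5:ℝ) ≤ a := by exact_mod_cast ha5
  obtain ⟨R, hR⟩ : ∃ R : ℤ, R = 121 * a * K + a + 2 := ⟨_, rfl⟩
  have haK : (a:ℝ) * (D2 * K) ≤ n := by
    rw [le_div_iff₀ (by positivity)] at hab; exact hab
  have hRR1 : 3 * R + 60 * a ≤ (R1:ℤ) := by
    have : ((3 * R + 60 * a : ℤ) : ℝ) ≤ ((R1:ℤ):ℝ) := by
      rw [hR]
      push_cast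
      have f0 : (1:ℝ) ≤ K := by exact_mod_cast hKpos
      have f1 : (a:ℝ) ≤ a * K := by nlinarith
      have f2 : (a:ℝ) * K * (1000 * D) ≤ n := by
        have : (D2:ℝ) = 1000 * D := by rw [hD2]; push_cast; ring
        rw [this] at haK
        linarith
      have f3 : (n:ℝ) ≤ R1 * (2 * D) := by
        rw [div_le_iff₀ (by positivity)] at hR1a; exact hR1a
      have f4 : (100:ℝ) * D ≤ n := by
        have : (0:ℝ) ≤ 16 * K1 := by positivity
        have : (0:ℝ) ≤ 10 * (D2 * K * M) := by positivity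
        linarith
      have f5 : (a:ℝ) * K * 1000 ≤ R1 * 2 := by
        have : ((a:ℝ) * K * 1000) * D ≤ (R1 * 2) * D := by linarith
        exact le_of_mul_le_mul_right this hDR
      have f6 : (50:ℝ) ≤ R1 := by
        have : (50:ℝ) * (2 * D) ≤ R1 * (2 * D) := by linarith
        exact le_of_mul_le_mul_right this (by positivity)
      nlinarith
    exact_mod_cast this
  have hRpos : (1:ℤ) ≤ R := by
    have : (0:ℤ) ≤ 121 * a * K := by positivity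
    omega
  have hR1m : (R1:ℤ) < m := by
    have : (0:ℤ) ≤ (m':ℤ) * (R1 + 1) := by positivity
    nlinarith
  have h2Rm : 2 * R < (m:ℤ) := by omega
  have hall : ∀ b c' A y0 : ℤ, TrialR t c E (RE b (b + n) c' (c' + n)) A y0 a δ0 := by
    intro b c' A y0 k F0 X Y T h1 h2 h3 h4 h5 h6 h7 h8
    rw [ha] at h4 h5 h8 ⊢
    refine le_trans ?_ (htr _ A y0 r (by omega) k F0 X Y T h1 h2 h3 h4 h5 h6 h7 h8)
    rw [hδ0]; exact min_le_left _ _
  have p3 : Pr (fun _ => (1/2:ℝ)) (RE 0 n 0 n) (fun F => ∃ σ : St,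
      inR (3 * R + 60 * a) (n - 3 * R - 60 * a) (3 * R + 60 * a) (n - 3 * R - 60 * a) σ.1 ∧
      (∃ t, Far σ.1 R (orb (↑F) σ t).1) ∧ ¬ RPin t c E a σ Set.univ (↑F)) ≤ δ / 3 := by
    refine (hlow t c E n a K δ0 R ha5 hKpos hδ0pos.le hδ01 hall (le_of_eq hR.symm)).trans
      (le_trans ?_ hK)
    have f1 : (n:ℝ) / a ≤ 2 * (D2 * K) := by
      rw [div_le_iff₀ (by linarith)]
      rw [div_le_iff₀ (by positivity)] at haa
      linarith
    have f2 : (1:ℝ) ≤ D2 * K := by exact_mod_cast hDK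
    have f3 : ((n:ℝ) / a + 1) ^ 2 ≤ (3 * (D2 * K)) ^ 2 := by
      apply pow_le_pow_left₀ (by positivity)
      linarith
    have f4 : (0:ℝ) ≤ (1 - δ0) ^ K := pow_nonneg (by linarith) _
    calc C' * ((n:ℝ) / a + 1) ^ 2 * (1 - δ0) ^ K ≤ C' * (3 * (D2 * K)) ^ 2 * (1 - δ0) ^ K := by
          gcongr
      _ = _ := by ring
  -- the size of the pinch
  have hrho : 1 / ((D2:ℝ) * K) * n ≤ ((2 * a : ℤ) : ℝ) := by
    push_cast
    have f1 : 1 / ((D2:ℝ) * K) * n = 2 * ((n:ℝ) / (2 * (D2 * K))) := by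
      field_simp
    rw [f1]
    linarith
  -- union bound
  have hsum : δ = δ / 3 + δ / 3 + δ / 3 := by ring
  rw [hsum]
  refine le_trans ?_ (add_le_add (add_le_add p1 p2) p3)
  refine le_trans ?_ (add_le_add_left (Pr_or_le hok _ _ _) _)
  refine le_trans ?_ (Pr_or_le hok _ _ _)
  apply Pr_mono hok
  rintro F hF ⟨v, hv, hno⟩
  by_contra hcon
  rw [not_or, not_or, not_not] at hcon
  obtain ⟨⟨hbig, hlay⟩, hlow'⟩ := hcon
  refine hno ⟨2 * a, hrho, ?_⟩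
  have hfin : RPinO t c E a (2 * a) v (↑F) := by
    refine hB t c E a n F R R1 m hF hbig hRpos hR1m h2Rm hlay ?_ v hv
    rintro ⟨σ, g1, g2, g3⟩
    apply hlow'
    refine ⟨σ, ?_, g2, g3⟩
    unfold inR at g1 ⊢
    omega
  obtain ⟨V, hV1, hV2, hV3⟩ := hfin
  refine ⟨V, ?_, ?_, hV3⟩
  · refine le_trans ?_ hV1
    rw [mul_assoc, ← Real.mul_rpow (by positivity) hnpos.le]
    refine mul_le_mul_of_nonneg_left ?_ hc.le
    refine Real.rpow_le_rpow (by positivity) ?_ (by norm_num)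
    calc 1 / (2 * ((D2:ℝ) * K)) * n = n / (2 * (D2 * K)) := by ring
      _ ≤ a := haa
  · refine hV2.trans ?_
    refine mul_le_mul_of_nonneg_left ?_ hE.le
    refine Real.rpow_le_rpow (by positivity) ?_ (by linarith)
    have f2 : (1:ℝ) ≤ D2 * K := by exact_mod_cast hDK
    nlinarith

end Pool.Agent.W924.PD
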